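import Mathlib

set_option autoImplicit false

/-!
# Project AC, module E11: from large radii to all radii
-/

namespace Pool.Agent.D0H58.AC

theorem ext (a M₁ : ℕ) (K0 θ : ℝ) (ha : 1 ≤ a) (hM₁ : 3 ≤ M₁) (hK0 : 0 ≤ K0) (hθ : 0 < θ)
    (hθ1 : θ ≤ 1) : ∃ K : ℝ, 0 ≤ K ∧
  ∀ (D N : ℝ) (F : ℕ → ℝ), 0 ≤ N → Monotone F → (∀ n, 0 ≤ F n) → (∀ n, F n ≤ N) →
    (∀ M : ℕ, M₁ ≤ M → D ≤ K0 * (N * (Real.log M / M) ^ θ + Real.log M * F (a * M))) →
    ∀ n : ℕ, 2 ≤ n → D ≤ K * (N * (Real.log n / n) ^ θ + Real.log n * F n) := by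
  obtain ⟨n0, hn0⟩ : ∃ n0 : ℕ, n0 = 2 * a * M₁ := ⟨_, rfl⟩
  have haR : (1 : ℝ) ≤ a := by exact_mod_cast ha
  have hM₁R : (3 : ℝ) ≤ M₁ := by exact_mod_cast hM₁
  have hn0pos : (0 : ℝ) < n0 := by
    rw [hn0]; push_cast; positivity
  have hlog2 : 0 < Real.log 2 := Real.log_pos (by norm_num)
  obtain ⟨c, hc⟩ : ∃ c, c = (Real.log 2 / n0) ^ θ := ⟨_, rfl⟩
  have hcpos : 0 < c := by rw [hc]; positivity
  have hlM : 0 ≤ Real.log M₁ := Real.log_nonneg (by linarith)
  refine ⟨K0 * (2 * a) + K0 * (1 + Real.log M₁) / c, by positivity, ?_⟩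
  intro D N F hN hF hF0 hFN H n hn
  have hnR : (2 : ℝ) ≤ n := by exact_mod_cast hn
  have hnpos : (0 : ℝ) < n := by linarith
  have hlogn : 0 < Real.log n := Real.log_pos (by linarith)
  have hterm1 : 0 ≤ N * (Real.log n / n) ^ θ := by positivity
  have hterm2 : 0 ≤ Real.log n * F n := mul_nonneg hlogn.le (hF0 n)
  have hK1 : 0 ≤ K0 * (2 * a) := by positivity
  have hK2 : 0 ≤ K0 * (1 + Real.log M₁) / c := by positivity
  by_cases h : n0 ≤ n
  · -- large radii
    obtain ⟨M, hM⟩ : ∃ M, M = n / a := ⟨_, rfl⟩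
    have ha0 : 0 < a := by omega
    have hMn : a * M ≤ n := by rw [hM]; exact Nat.mul_div_le n a
    have hnM : n < a * M + a := by
      rw [hM]
      have := Nat.lt_mul_div_succ n ha0
      rw [Nat.mul_succ] at this
      exact this
    have h2M : 2 * M₁ ≤ M := by
      rw [hM, Nat.le_div_iff_mul_le ha0]
      calc 2 * M₁ * a = n0 := by rw [hn0]; ring
        _ ≤ n := h
    have hM1 : M₁ ≤ M := by omega
    have hMR : (6 : ℝ) ≤ M := by
      have : 6 ≤ M := by omega
      exact_mod_cast this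
    have hMpos : (0 : ℝ) < M := by linarith
    have hMn' : (M : ℝ) ≤ n := by
      have : M ≤ n := le_trans (Nat.le_mul_of_pos_left M ha0) hMn
      exact_mod_cast this
    have hn2M : (n : ℝ) ≤ 2 * a * M := by
      have h1 : n ≤ 2 * (a * M) := by
        have : a ≤ a * M := Nat.le_mul_of_pos_right a (by omega)
        omega
      have h2 : (n : ℝ) ≤ 2 * ((a : ℝ) * M) := by exact_mod_cast h1
      linarith
    have hlogM : Real.log M ≤ Real.log n := Real.log_le_log hMpos hMn'
    have hlogM0 : 0 ≤ Real.log M := Real.log_nonneg (by linarith)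
    have hq : Real.log M / M ≤ 2 * a * (Real.log n / n) := by
      rw [mul_div_assoc', div_le_div_iff₀ hMpos hnpos]
      calc Real.log M * n ≤ Real.log n * (2 * a * M) :=
            mul_le_mul hlogM hn2M hnpos.le hlogn.le
        _ = 2 * a * Real.log n * M := by ring
    have hq' : (Real.log M / M) ^ θ ≤ 2 * a * (Real.log n / n) ^ θ := by
      calc (Real.log M / M) ^ θ ≤ (2 * a * (Real.log n / n)) ^ θ :=
            Real.rpow_le_rpow (by positivity) hq hθ.le
        _ = (2 * a : ℝ) ^ θ * (Real.log n / n) ^ θ :=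
            Real.mul_rpow (by positivity) (by positivity)
        _ ≤ (2 * a : ℝ) ^ (1 : ℝ) * (Real.log n / n) ^ θ := by
            apply mul_le_mul_of_nonneg_right _ (by positivity)
            exact Real.rpow_le_rpow_of_exponent_le (by linarith) hθ1
        _ = 2 * a * (Real.log n / n) ^ θ := by rw [Real.rpow_one]
    have h1 := H M hM1
    have h2 : N * (Real.log M / M) ^ θ ≤ 2 * a * (N * (Real.log n / n) ^ θ) := by
      calc N * (Real.log M / M) ^ θ ≤ N * (2 * a * (Real.log n / n) ^ θ) :=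
            mul_le_mul_of_nonneg_left hq' hN
        _ = 2 * a * (N * (Real.log n / n) ^ θ) := by ring
    have h3 : Real.log M * F (a * M) ≤ 2 * a * (Real.log n * F n) := by
      calc Real.log M * F (a * M) ≤ Real.log n * F n :=
            mul_le_mul hlogM (hF hMn) (hF0 _) hlogn.le
        _ ≤ 2 * a * (Real.log n * F n) := by
            have : (1 : ℝ) ≤ 2 * a := by linarith
            exact le_mul_of_one_le_left hterm2 this
    calc D ≤ K0 * (N * (Real.log M / M) ^ θ + Real.log M * F (a * M)) := h1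
      _ ≤ K0 * (2 * a * (N * (Real.log n / n) ^ θ) + 2 * a * (Real.log n * F n)) :=
          mul_le_mul_of_nonneg_left (add_le_add h2 h3) hK0
      _ = K0 * (2 * a) * (N * (Real.log n / n) ^ θ + Real.log n * F n) := by ring
      _ ≤ (K0 * (2 * a) + K0 * (1 + Real.log M₁) / c) *
          (N * (Real.log n / n) ^ θ + Real.log n * F n) :=
          mul_le_mul_of_nonneg_right (by linarith) (by linarith)
  · -- small radii
    have hnn0 : (n : ℝ) ≤ n0 := by
      have : n ≤ n0 := by omega
      exact_mod_cast this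
    have h1 := H M₁ le_rfl
    have hlM1 : Real.log M₁ / M₁ ≤ 1 := by
      rw [div_le_one (by linarith)]
      exact (Real.log_le_sub_one_of_pos (by linarith)).trans (by linarith)
    have h2 : (Real.log M₁ / M₁) ^ θ ≤ 1 :=
      Real.rpow_le_one (by positivity) hlM1 hθ.le
    have h3 : D ≤ K0 * (1 + Real.log M₁) * N := by
      calc D ≤ K0 * (N * (Real.log M₁ / M₁) ^ θ + Real.log M₁ * F (a * M₁)) := h1
        _ ≤ K0 * (N * 1 + Real.log M₁ * N) := by
            apply mul_le_mul_of_nonneg_left _ hK0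
            exact add_le_add (mul_le_mul_of_nonneg_left h2 hN)
              (mul_le_mul_of_nonneg_left (hFN _) hlM)
        _ = K0 * (1 + Real.log M₁) * N := by ring
    have hcn : c ≤ (Real.log n / n) ^ θ := by
      rw [hc]
      apply Real.rpow_le_rpow (by positivity) _ hθ.le
      exact div_le_div₀ hlogn.le (Real.log_le_log (by norm_num) hnR) hnpos hnn0
    have h4 : K0 * (1 + Real.log M₁) * N ≤ K0 * (1 + Real.log M₁) / c * (N * (Real.log n / n) ^ θ) := by
      rw [div_mul_eq_mul_div, le_div_iff₀ hcpos]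
      have h5 : N * c ≤ N * (Real.log n / n) ^ θ := mul_le_mul_of_nonneg_left hcn hN
      calc K0 * (1 + Real.log M₁) * N * c = K0 * (1 + Real.log M₁) * (N * c) := by ring
        _ ≤ K0 * (1 + Real.log M₁) * (N * (Real.log n / n) ^ θ) :=
            mul_le_mul_of_nonneg_left h5 (by positivity)
    calc D ≤ K0 * (1 + Real.log M₁) / c * (N * (Real.log n / n) ^ θ) := h3.trans h4
      _ ≤ K0 * (1 + Real.log M₁) / c * (N * (Real.log n / n) ^ θ + Real.log n * F n) :=
          mul_le_mul_of_nonneg_left (by linarith) hK2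
      _ ≤ (K0 * (2 * a) + K0 * (1 + Real.log M₁) / c) *
          (N * (Real.log n / n) ^ θ + Real.log n * F n) :=
          mul_le_mul_of_nonneg_right (by linarith) (by linarith)

end Pool.Agent.D0H58.AC
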