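import Mathlib

set_option autoImplicit false

/-!
# Project AC, module E10: the iterated logarithm
-/

namespace Pool.Agent.D0H58.AC

theorem llog (κ : ℕ) (hκ : 2 ≤ κ) : ∃ C : ℝ, 0 < C ∧ ∀ N : ℕ, 3 ≤ N →
  (2 ≤ Nat.log κ (N - 1) ∧ κ ^ (Nat.log κ (N - 1)) < N ∧
    Real.log (Nat.log κ (N - 1)) / (Nat.log κ (N - 1)) ≤ C * (Real.log (Real.log N) / Real.log N)) ∨
  1 ≤ C * (Real.log (Real.log N) / Real.log N) := by
  have hl3 : 1 < Real.log 3 := by
    rw [Real.lt_log_iff_exp_lt (by norm_num)]
    exact lt_trans Real.exp_one_lt_d9 (by norm_num)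
  obtain ⟨c0, hc0⟩ : ∃ c0, c0 = Real.log (Real.log 3) := ⟨_, rfl⟩
  have hc0pos : 0 < c0 := by rw [hc0]; exact Real.log_pos hl3
  obtain ⟨l, hl⟩ : ∃ l, l = Real.log (κ : ℝ) := ⟨_, rfl⟩
  have hκR : (2 : ℝ) ≤ κ := by exact_mod_cast hκ
  have hl2 : Real.log 2 ≤ l := by rw [hl]; exact Real.log_le_log (by norm_num) hκR
  have hlog2 : 0 < Real.log 2 := Real.log_pos (by norm_num)
  have hlog2' : (1 : ℝ) / 2 < Real.log 2 := lt_trans (by norm_num) Real.log_two_gt_d9
  have hlpos : 0 < l := lt_of_lt_of_le hlog2 hl2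
  have hK1 : 1 ≤ 1 + (1 + Real.log 2) / c0 := by
    have : 0 ≤ (1 + Real.log 2) / c0 := by positivity
    linarith
  refine ⟨2 * l * (1 + (1 + Real.log 2) / c0), by positivity, fun N hN => ?_⟩
  have hNR : (3 : ℝ) ≤ N := by exact_mod_cast hN
  have hNpos : (0 : ℝ) < N := by linarith
  have hlN : Real.log 3 ≤ Real.log N := Real.log_le_log (by norm_num) hNR
  have hlN1 : 1 < Real.log N := lt_of_lt_of_le hl3 hlN
  have hlN0 : 0 < Real.log N := by linarith
  have hll : c0 ≤ Real.log (Real.log N) := by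
    rw [hc0]; exact Real.log_le_log (by linarith) hlN
  have hllpos : 0 < Real.log (Real.log N) := lt_of_lt_of_le hc0pos hll
  obtain ⟨n, hn⟩ : ∃ n, n = Nat.log κ (N - 1) := ⟨_, rfl⟩
  rw [← hn]
  have hκ1 : 1 < κ := by omega
  have hN1 : N - 1 ≠ 0 := by omega
  have hpow : κ ^ n ≤ N - 1 := by rw [hn]; exact Nat.pow_log_le_self κ hN1
  have hpow' : N - 1 < κ ^ (n + 1) := by rw [hn]; exact Nat.lt_pow_succ_log_self hκ1 (N - 1)
  have hNle : N ≤ κ ^ (n + 1) := by omega
  have hlogN : Real.log N ≤ (n + 1) * l := by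
    have h1 : Real.log N ≤ Real.log ((κ : ℝ) ^ (n + 1)) := by
      apply Real.log_le_log hNpos
      exact_mod_cast hNle
    rw [Real.log_pow, ← hl] at h1
    push_cast at h1
    exact h1
  by_cases h2 : 2 ≤ n
  · left
    have hn0 : (0 : ℝ) < n := by
      have : (2 : ℝ) ≤ n := by exact_mod_cast h2
      linarith
    have hn2 : (2 : ℝ) ≤ n := by exact_mod_cast h2
    refine ⟨h2, by omega, ?_⟩
    have hnl : n * l ≤ Real.log N := by
      have h1 : Real.log ((κ : ℝ) ^ n) ≤ Real.log N := by
        apply Real.log_le_log (by positivity)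
        have : κ ^ n ≤ N := by omega
        exact_mod_cast this
      rw [Real.log_pow, ← hl] at h1
      exact h1
    have hn2N : (n : ℝ) ≤ 2 * Real.log N := by
      have h3 : (n : ℝ) * (1 / 2) ≤ n * l := by
        apply mul_le_mul_of_nonneg_left _ hn0.le
        linarith
      linarith
    have hlogn : Real.log n ≤ Real.log 2 + Real.log (Real.log N) := by
      rw [← Real.log_mul (by norm_num) hlN0.ne']
      exact Real.log_le_log hn0 hn2N
    have hlogn' : Real.log n ≤ (1 + Real.log 2 / c0) * Real.log (Real.log N) := by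
      have h3 : Real.log 2 ≤ Real.log 2 / c0 * Real.log (Real.log N) := by
        rw [div_mul_eq_mul_div, le_div_iff₀ hc0pos]
        exact mul_le_mul_of_nonneg_left hll hlog2.le
      linarith
    have hinv : 1 / (n : ℝ) ≤ 2 * l / Real.log N := by
      rw [div_le_div_iff₀ hn0 hlN0]
      have h3 : ((n : ℝ) + 1) * l ≤ 2 * l * n := by
        have : ((n : ℝ) + 1) ≤ 2 * n := by linarith
        calc ((n : ℝ) + 1) * l ≤ (2 * n) * l := mul_le_mul_of_nonneg_right this hlpos.le
          _ = 2 * l * n := by ring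
      linarith
    have hfac : 1 + Real.log 2 / c0 ≤ 1 + (1 + Real.log 2) / c0 := by
      have : Real.log 2 / c0 ≤ (1 + Real.log 2) / c0 :=
        div_le_div_of_nonneg_right (by linarith) hc0pos.le
      linarith
    have hlognn : 0 ≤ Real.log n := Real.log_nonneg (by linarith)
    calc Real.log n / n = Real.log n * (1 / n) := by ring
      _ ≤ ((1 + (1 + Real.log 2) / c0) * Real.log (Real.log N)) * (2 * l / Real.log N) := by
          refine mul_le_mul (hlogn'.trans (mul_le_mul_of_nonneg_right hfac hllpos.le)) hinv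
            (by positivity) (by positivity)
      _ = 2 * l * (1 + (1 + Real.log 2) / c0) * (Real.log (Real.log N) / Real.log N) := by ring
  · right
    have hn1 : (n : ℝ) ≤ 1 := by
      have : n ≤ 1 := by omega
      exact_mod_cast this
    have h3 : Real.log N ≤ 2 * l := by
      refine hlogN.trans ?_
      exact mul_le_mul_of_nonneg_right (by linarith) hlpos.le
    have h4 : 1 ≤ (1 + (1 + Real.log 2) / c0) * Real.log (Real.log N) := by
      have h5 : 1 ≤ (1 + Real.log 2) / c0 * Real.log (Real.log N) := by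
        rw [div_mul_eq_mul_div, le_div_iff₀ hc0pos]
        have : 1 * c0 ≤ (1 + Real.log 2) * Real.log (Real.log N) :=
          mul_le_mul (by linarith) hll hc0pos.le (by linarith)
        exact this
      have h6 : 0 ≤ Real.log (Real.log N) := hllpos.le
      linarith
    have h5 : 1 ≤ 2 * l / Real.log N := by
      rw [le_div_iff₀ hlN0]; linarith
    calc (1 : ℝ) = 1 * 1 := by ring
      _ ≤ ((1 + (1 + Real.log 2) / c0) * Real.log (Real.log N)) * (2 * l / Real.log N) :=
          mul_le_mul h4 h5 (by norm_num) (by positivity)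
      _ = 2 * l * (1 + (1 + Real.log 2) / c0) * (Real.log (Real.log N) / Real.log N) := by ring

end Pool.Agent.D0H58.AC
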