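import Pool.Agent.D0H83.AC.Stm4
import Pool.Agent.D0H58.AC.Llog
import Pool.Agent.D0H58.AC.Ext

set_option autoImplicit false

/-!
# Project AC, modules E10 LLOG and E11 EXT
-/

namespace Pool.Agent.D0H58.AC

open Pool.Agent.D0H83.AC

theorem t_llog : S_llog := fun κ hκ => llog κ hκ

theorem t_ext : S_ext := fun a M₁ K0 θ h1 h2 h3 h4 h5 => ext a M₁ K0 θ h1 h2 h3 h4 h5

end Pool.Agent.D0H58.AC
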